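import Pool.Agent.N436.DF.Stm3
import Pool.Agent.N436.DF.All

/-!
# No set with a real boundary edge has potential 3 or 4 (helper711)
-/

set_option linter.unusedSectionVars false

open Finset

namespace Pool.Agent.N711.DF.Rb5

open Pool.Agent.N436.DF

section

variable {V : Type} [DecidableEq V] {H : Hub V}

theorem r_nn (hO : Ok P13 H) (x z : V) : 0 ≤ H.r x z := by
  rcases hO.r01 x z with h | h <;> rw [h] <;> norm_num

theorem sv_nn (hO : Ok P13 H) (f : V → Bool) {s : V → V → ℤ} (hs : ∀ x z, 0 ≤ s x z) (x z : V) :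
    0 ≤ sv H f s x z := by
  have h1 : 0 ≤ min (H.m x z) (s x z) := le_min (hO.m_nn x z) (hs x z)
  have h2 := hO.m_nn x z
  have h3 := r_nn hO x z
  unfold sv
  split_ifs <;> nlinarith

theorem sv0 (hO : Ok P13 H) (f : V → Bool) (x z : V) :
    sv H f (fun _ _ => 0) x z = if f x = true then 2 * (H.r x z + H.m x z) else 0 := by
  have h2 := hO.m_nn x z
  unfold sv
  simp only [min_eq_right h2]
  rcases hO.r01 x z with h | h
  · rw [h]
    by_cases hf : f x = true
    · simp [hf]
    · simp [hf]
  · rw [h]
    by_cases hf : f x = true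
    · simp only [hf, if_true]
      norm_num
      ring
    · simp only [hf]
      norm_num

theorem sv_le (hO : Ok P13 H) (f : V → Bool) {s : V → V → ℤ} (hs : ∀ x z, 0 ≤ s x z)
    {X C : Finset V} {v w : V} (hv : v ∈ X) (hw : w ∈ C) :
    sv H f s v w ≤ ∑ x ∈ X, ∑ z ∈ C, sv H f s x z := by
  refine (single_le_sum (f := fun z => sv H f s v z) (fun z _ => sv_nn hO f hs v z) hw).trans ?_
  exact single_le_sum (f := fun x => ∑ z ∈ C, sv H f s x z)
    (fun x _ => sum_nonneg fun z _ => sv_nn hO f hs x z) hv

/-- the extremal set -/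
theorem exists_top {S Y₀ : Finset V} (h0 : Y₀ ⊆ S) (hR : RB H S Y₀) :
    ∃ X, X ⊆ S ∧ RB H S X ∧ (∀ Y, Y ⊆ S → RB H S Y → hp H X ≤ hp H Y) ∧
      ∀ Y, X ⊂ Y → Y ⊆ S → RB H S Y → hp H X < hp H Y := by
  classical
  have hmem : ∀ Y, Y ∈ S.powerset.filter (fun Y => RB H S Y) ↔ Y ⊆ S ∧ RB H S Y := fun Y => by
    rw [mem_filter, mem_powerset]
  obtain ⟨X₀, hX₀, hm⟩ := exists_min_image (S.powerset.filter (fun Y => RB H S Y)) (hp H)
    ⟨Y₀, (hmem _).2 ⟨h0, hR⟩⟩
  obtain ⟨X, hX, hM⟩ := exists_max_image
    ((S.powerset.filter (fun Y => RB H S Y)).filter (fun Y => hp H Y = hp H X₀)) Finset.card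
    ⟨X₀, mem_filter.2 ⟨hX₀, rfl⟩⟩
  obtain ⟨hX1, hX2⟩ := mem_filter.1 hX
  obtain ⟨hX3, hX4⟩ := (hmem _).1 hX1
  have hmin : ∀ Y, Y ⊆ S → RB H S Y → hp H X ≤ hp H Y := fun Y h1 h2 => by
    rw [hX2]
    exact hm Y ((hmem _).2 ⟨h1, h2⟩)
  refine ⟨X, hX3, hX4, hmin, fun Y h1 h2 h3 => lt_of_le_of_ne (hmin Y h2 h3) fun he => ?_⟩
  have h4 := hM Y (mem_filter.2 ⟨(hmem _).2 ⟨h2, h3⟩, by rw [← he, hX2]⟩)
  have h5 := card_lt_card h1
  omega

end

theorem rb5' (hZ : S_Z) (hcaps : S_caps) (hb : S3_base) (hs : S3_state) (hk : S3_kill)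
    (hP : S3_killP) (hR : S3_killR) (hg : S3_glue) : S3_rb5 := by
  intro V _ H S mc Y₀ hY₀ hRB₀
  by_contra hlt
  push Not at hlt
  have hO := mc.ok
  obtain ⟨-, b2, -, b4, b5⟩ := hb V H hO
  obtain ⟨lo, pr⟩ := b5 S mc
  obtain ⟨X, hXS, hXRB, hmin, hmax⟩ := exists_top hY₀ hRB₀
  have hμ4 : hp H X ≤ 4 := by
    have := hmin Y₀ hY₀ hRB₀
    omega
  obtain ⟨v, hv, w, hw, hvw⟩ := hXRB
  have hwS : w ∈ S := (mem_sdiff.1 hw).1
  have hwX : w ∉ X := (mem_sdiff.1 hw).2
  have hXne : X.Nonempty := ⟨v, hv⟩
  have hXS' : X ≠ S := fun h => hwX (by rw [h]; exact hwS)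
  have hlow3 : ∀ C, C ⊆ X → C.Nonempty → 3 ≤ hp H C := fun C hC hCn =>
    (pr C (hC.trans hXS) hCn (fun h => hwX (hC (by rw [h]; exact hwS)))).2
  have hloS : -2 ≤ hp H S := lo S Subset.rfl ⟨w, hwS⟩
  have hU3 : ∀ C, C ⊆ S \ X → X ∪ C ≠ S → 3 ≤ hp H (X ∪ C) := fun C hC hCS =>
    (pr (X ∪ C) (union_subset hXS (hC.trans sdiff_subset)) (hXne.mono subset_union_left) hCS).2
  have hUS : ∀ C, C ⊆ S \ X → X ∪ C = S → ∀ y ∈ S \ X, y ∈ C := by
    intro C _ hCS y hy
    have h1 : y ∈ X ∪ C := by
      rw [hCS]
      exact (mem_sdiff.1 hy).1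
    exact (mem_union.1 h1).resolve_left (mem_sdiff.1 hy).2
  -- the state
  obtain ⟨f, p, hcol, hload⟩ := hs V H S X (fun i x => if i = false ∧ x = v then 1 else 0) mc hXS
    hXS' (by intro i x; split_ifs <;> norm_num) (by
      intro C hC hCn
      have h3 := hlow3 C hC hCn
      have h4 : cost (fun (i : Bool) (x : V) => if i = false ∧ x = v then (1 : ℤ) else 0) C ≤ 3 := by
        unfold cost
        have e : ∀ z : V, 5 * (if true = false ∧ z = v then (1 : ℤ) else 0) +
            3 * (if false = false ∧ z = v then (1 : ℤ) else 0) = if z = v then 3 else 0 := by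
          intro z
          by_cases hz : z = v <;> simp [hz]
        have e' := sum_congr (rfl : C = C) fun z _ => e z
        rw [sum_ite_eq' C v (fun _ => (3 : ℤ))] at e'
        refine (le_of_eq e').trans ?_
        split_ifs <;> norm_num
      omega)
  -- step 1
  have hfv : f v = true := by
    by_contra hfv
    replace hfv : f v = false := by simpa using hfv
    have hnn : ∀ x z : V, (0 : ℤ) ≤ (fun x z => if x = v ∧ z = w then (1 : ℤ) else 0) x z := by
      intro x z
      dsimp only
      split_ifs <;> norm_num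
    obtain ⟨C, hC, hCn, hle⟩ := hk V H S X f p (fun x z => if x = v ∧ z = w then (1 : ℤ) else 0) mc
      hXS hXne hcol hnn (by
        intro x hx
        by_cases hxv : x = v
        · subst hxv
          have e : ∑ z ∈ S \ X, (if x = x ∧ z = w then (1 : ℤ) else 0) = 1 := by
            simp only [true_and]
            rw [sum_ite_eq' (S \ X) w (fun _ => (1 : ℤ)), if_pos hw]
          rw [e]
          have h1 := (hload x hx).1
          rw [if_pos ⟨hfv, rfl⟩] at h1
          exact h1
        · have e : ∑ z ∈ S \ X, (if x = v ∧ z = w then (1 : ℤ) else 0) = 0 :=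
            sum_eq_zero fun z _ => if_neg fun h => hxv h.1
          rw [e, add_zero]
          exact hcol.cap x hx)
    by_cases hCS : X ∪ C = S
    · have hwC := hUS C hC hCS w hw
      have h1 := sv_le hO f hnn hv hwC
      have h2 : 9 ≤ sv H f (fun x z => if x = v ∧ z = w then (1 : ℤ) else 0) v w := by
        unfold sv
        have h3 : 0 ≤ min (H.m v w) 1 := le_min (hO.m_nn v w) zero_le_one
        simp only [and_self, if_true, hvw, hfv, le_refl]
        simp
        omega
      rw [hCS] at hle
      omega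
    · have h1 := hU3 C hC hCS
      have h2 : 0 ≤ ∑ x ∈ X, ∑ z ∈ C,
          sv H f (fun x z => if x = v ∧ z = w then (1 : ℤ) else 0) x z :=
        sum_nonneg fun x _ => sum_nonneg fun z _ => sv_nn hO f hnn x z
      omega
  have hnn0 : ∀ x z : V, (0 : ℤ) ≤ (fun _ _ => 0 : V → V → ℤ) x z := fun _ _ => le_rfl
  have cap0 : ∀ x ∈ X, load H X f p x + ∑ z ∈ S \ X, (fun _ _ => 0 : V → V → ℤ) x z ≤
      H.c (f x) x := by
    intro x hx
    rw [sum_const_zero, add_zero]
    exact hcol.cap x hx
  by_cases hB : S \ X = {w}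
  · -- step 2
    obtain ⟨C, hC, hCn, hle⟩ := hk V H S X f p (fun _ _ => 0) mc hXS hXne hcol hnn0 cap0
    have hCw : C = {w} := by
      rw [hB] at hC
      exact hCn.subset_singleton_iff.1 hC
    have hXw : X ∪ {w} = S := by
      rw [← hB]
      exact union_sdiff_of_subset hXS
    rw [hCw, hXw] at hle
    simp only [sum_singleton, sv0 hO] at hle
    rw [← add_sum_erase X _ hv, if_pos hfv, hvw] at hle
    have hterm : ∀ x ∈ X.erase v,
        0 ≤ (if f x = true then 2 * (H.r x w + H.m x w) else 0) := by
      intro x _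
      have h1 := r_nn hO x w
      have h2 := hO.m_nn x w
      split_ifs <;> omega
    have hsum0 := sum_nonneg hterm
    have hmv := hO.m_nn v w
    have hmvw : H.m v w = 0 := by omega
    have hother : ∀ x ∈ X, x ≠ v → f x = true → H.r x w = 0 ∧ H.m x w = 0 := by
      intro x hx hxv hfx
      have h1 := single_le_sum hterm (mem_erase.2 ⟨hxv, hx⟩)
      rw [if_pos hfx] at h1
      have h2 := r_nn hO x w
      have h3 := hO.m_nn x w
      constructor <;> omega
    -- potentials
    have e := b2 X {w} (disjoint_singleton_right.2 hwX)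
    have e1 : rr H X {w} = 1 + ∑ x ∈ X.erase v, H.r x w := by
      unfold rr
      simp only [sum_singleton]
      rw [← add_sum_erase X _ hv, hvw]
    have e2 : mm H X {w} = ∑ x ∈ X, H.m x w := by
      unfold mm
      simp only [sum_singleton]
    rw [hXw, e1, e2, b4 w] at e
    have c1 : H.c true w ≤ 1 := hO.c1_le w
    have c2 : H.c false w ≤ 3 := hO.c2_le w
    have hR0 : 0 ≤ ∑ x ∈ X.erase v, H.r x w := sum_nonneg fun x _ => r_nn hO x w
    have hQ0 : 0 ≤ ∑ x ∈ X, H.m x w := sum_nonneg fun x _ => hO.m_nn x w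
    have hxS : ∀ x ∈ S, x ∈ X ∨ x = w := by
      intro x hx
      rw [← hXw] at hx
      rcases mem_union.1 hx with h | h
      · exact Or.inl h
      · exact Or.inr (mem_singleton.1 h)
    by_cases hR1 : ∑ x ∈ X.erase v, H.r x w = 0
    · -- one real edge
      have hz := (sum_eq_zero_iff_of_nonneg fun x _ => r_nn hO x w).1 hR1
      have hcw : 0 ≤ H.c false w := hcaps V P13 H S mc w hwS false
      have hlw : load H (S \ X) (fun _ => false) (fun _ _ => 0) w = 0 := by
        unfold load
        rw [hB, sum_singleton]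
        simp [hO.r0 w]
      have hu : ∀ u ∈ S \ X, u = w := fun u hu => by
        rw [hB] at hu
        exact mem_singleton.1 hu
      have colw : ColBy H (S \ X) (fun _ => false) (fun _ _ => 0) := by
        refine ⟨fun _ _ => le_rfl, fun u _ v _ h => absurd rfl h, ?_⟩
        intro u hu'
        rw [hu u hu', hlw]
        exact hcw
      obtain ⟨F, P', hF, -⟩ := hg V H S X f (fun _ => false) p (fun _ _ => 0) (fun _ _ => 0)
        (fun _ _ => 0) hO hXS hcol colw hnn0 hnn0 (by
          intro x hx z hz' hfx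
          rw [hu z hz']
          have hxv : x ≠ v := by
            rintro rfl
            rw [hfv] at hfx
            exact absurd hfx (by decide)
          have := hz x (mem_erase.2 ⟨hxv, hx⟩)
          rw [this]
          exact ⟨le_rfl, le_rfl⟩) (by
          intro x hx z hz' hfx
          rw [hu z hz']
          have hfx' : f x = true := by
            cases h : f x
            · exact absurd h hfx
            · rfl
          by_cases hxv : x = v
          · rw [hxv, hmvw]
            norm_num
          · rw [(hother x hx hxv hfx').2]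
            norm_num) cap0 (by
          intro z hz'
          rw [hu z hz', hlw, sum_const_zero, add_zero]
          exact hcw)
      exact mc.ncol ⟨F, P', hF⟩
    · -- two real edges
      obtain ⟨u', hu', hne⟩ := exists_ne_zero_of_sum_ne_zero hR1
      have hru' : H.r u' w = 1 := (hO.r01 u' w).resolve_left hne
      obtain ⟨hu'v, hu'X⟩ := mem_erase.1 hu'
      rw [← add_sum_erase (X.erase v) _ hu', hru'] at e hR0
      have hR2 : 0 ≤ ∑ x ∈ (X.erase v).erase u', H.r x w := sum_nonneg fun x _ => r_nn hO x w
      have hR3 : ∑ x ∈ (X.erase v).erase u', H.r x w = 0 := by omega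
      have hQ1 : ∑ x ∈ X, H.m x w = 0 := by omega
      have hz := (sum_eq_zero_iff_of_nonneg fun x _ => r_nn hO x w).1 hR3
      have hq := (sum_eq_zero_iff_of_nonneg fun x _ => hO.m_nn x w).1 hQ1
      refine hZ V P13 H S w v u' mc hwS (hXS hv) (hXS hu'X) (Ne.symm hu'v)
        (by rw [hO.rsymm, hvw]) (by rw [hO.rsymm, hru']) ?_ ?_ (by omega) (by omega)
      · intro x hx h1 h2
        rcases hxS x hx with h | h
        · rw [hO.rsymm]
          exact hz x (mem_erase.2 ⟨h2, mem_erase.2 ⟨h1, h⟩⟩)
        · rw [h]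
          exact hO.r0 w
      · intro x hx
        rcases hxS x hx with h | h
        · rw [hO.msymm]
          exact hq x h
        · rw [h]
          exact hO.m0 w
  · -- step 3
    have hex : ∃ y ∈ S \ X, y ≠ w ∧ (H.r w y = 1 ∨ 1 ≤ H.m w y) := by
      by_contra hcon
      push Not at hcon
      have hz : ∀ y ∈ (S \ X).erase w, H.r w y = 0 ∧ H.m w y = 0 := by
        intro y hy
        obtain ⟨h1, h2⟩ := mem_erase.1 hy
        obtain ⟨h3, h4⟩ := hcon y h2 h1
        refine ⟨(hO.r01 w y).resolve_right h3, ?_⟩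
        have := hO.m_nn w y
        omega
      have hd1 : Disjoint X {w} := disjoint_singleton_right.2 hwX
      have hd2 : Disjoint X ((S \ X).erase w) :=
        disjoint_of_subset_right (erase_subset _ _) disjoint_sdiff
      have hd3 : Disjoint ({w} : Finset V) ((S \ X).erase w) := by
        rw [disjoint_singleton_left]
        exact notMem_erase _ _
      have hd4 : Disjoint (X ∪ {w}) ((S \ X).erase w) := disjoint_union_left.2 ⟨hd2, hd3⟩
      have hS : (X ∪ {w}) ∪ (S \ X).erase w = S := by
        ext x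
        simp only [mem_union, mem_singleton, mem_erase, mem_sdiff]
        constructor
        · rintro ((h | h) | h)
          · exact hXS h
          · rw [h]
            exact hwS
          · exact h.2.1
        · intro h
          by_cases h1 : x ∈ X
          · exact Or.inl (Or.inl h1)
          · by_cases h2 : x = w
            · exact Or.inl (Or.inr h2)
            · exact Or.inr ⟨h2, h, h1⟩
      have e2 := b2 (X ∪ {w}) ((S \ X).erase w) hd4
      have e3 := b2 X ((S \ X).erase w) hd2
      have e4 : rr H (X ∪ {w}) ((S \ X).erase w) = rr H X ((S \ X).erase w) := by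
        unfold rr
        rw [sum_union hd1, sum_singleton, sum_eq_zero (s := (S \ X).erase w)
          (f := fun z => H.r w z) fun y hy => (hz y hy).1, add_zero]
      have e5 : mm H (X ∪ {w}) ((S \ X).erase w) = mm H X ((S \ X).erase w) := by
        unfold mm
        rw [sum_union hd1, sum_singleton, sum_eq_zero (s := (S \ X).erase w)
          (f := fun z => H.m w z) fun y hy => (hz y hy).2, add_zero]
      rw [hS, e4, e5] at e2
      have h1 := (pr (X ∪ (S \ X).erase w)
        (union_subset hXS ((erase_subset _ _).trans sdiff_subset)) (hXne.mono subset_union_left)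
        (fun h => by
          have h5 : w ∈ X ∪ (S \ X).erase w := by
            rw [h]
            exact hwS
          rcases mem_union.1 h5 with h6 | h6
          · exact hwX h6
          · exact notMem_erase _ _ h6)).1
      have h2 := hU3 {w} (singleton_subset_iff.2 hw) (fun h => hB (by
        rw [← h, union_sdiff_cancel_left hd1]))
      omega
    obtain ⟨y, hy, hyw, hyr⟩ := hex
    have key : ∀ C, C ⊆ S \ X →
        0 ≤ ∑ x ∈ X, ∑ z ∈ C, sv H f (fun _ _ => 0) x z ∧
        (w ∈ C → 2 ≤ ∑ x ∈ X, ∑ z ∈ C, sv H f (fun _ _ => 0) x z) := by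
      intro C _
      refine ⟨sum_nonneg fun x _ => sum_nonneg fun z _ => sv_nn hO f hnn0 x z, fun hwC => ?_⟩
      refine le_trans ?_ (sv_le hO f hnn0 hv hwC)
      rw [sv0 hO, if_pos hfv, hvw]
      have := hO.m_nn v w
      omega
    rcases hyr with hyr | hym
    · obtain ⟨C, hC, hCn, hle⟩ := hR V H S X f p (fun _ _ => 0) v w y mc hXS hcol hnn0 cap0 hv hw
        hvw hfv rfl hy hyr
      obtain ⟨k1, k2⟩ := key C hC
      by_cases hCS : X ∪ C = S
      · have hwC := hUS C hC hCS w hw
        have hyC := hUS C hC hCS y hy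
        have k3 := k2 hwC
        rw [if_pos hwC, if_pos hyC, hCS] at hle
        omega
      · have h3 := hU3 C hC hCS
        by_cases hwC : w ∈ C
        · have k3 := k2 hwC
          rw [if_pos hwC] at hle
          split_ifs at hle <;> omega
        · rw [if_neg hwC] at hle
          by_cases hyC : y ∈ C
          · rw [if_pos hyC] at hle
            have hRB : RB H S (X ∪ C) := by
              refine ⟨v, mem_union_left _ hv, w, mem_sdiff.2 ⟨hwS, fun h => ?_⟩, hvw⟩
              rcases mem_union.1 h with h | h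
              · exact hwX h
              · exact hwC h
            have hss : X ⊂ X ∪ C := by
              refine ⟨subset_union_left, fun h => ?_⟩
              exact (mem_sdiff.1 hy).2 (h (mem_union_right _ hyC))
            have := hmax (X ∪ C) hss (union_subset hXS (hC.trans sdiff_subset)) hRB
            omega
          · rw [if_neg hyC] at hle
            omega
    · obtain ⟨C, hC, hCn, hle⟩ := hP V H S X f p (fun _ _ => 0) v w y mc hXS hcol hnn0 cap0 hv hw
        hvw hfv rfl hy hyw hym
      obtain ⟨k1, k2⟩ := key C hC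
      by_cases hCS : X ∪ C = S
      · have hwC := hUS C hC hCS w hw
        have hyC := hUS C hC hCS y hy
        have k3 := k2 hwC
        rw [if_pos hwC, if_pos hyC, hCS] at hle
        omega
      · have h3 := hU3 C hC hCS
        by_cases hwC : w ∈ C
        · have k3 := k2 hwC
          rw [if_pos hwC] at hle
          split_ifs at hle <;> omega
        · rw [if_neg hwC] at hle
          omega

theorem rb5 (hb : S3_base) (hs : S3_state) (hk : S3_kill) (hP : S3_killP) (hR : S3_killR)
    (hg : S3_glue) : S3_rb5 := rb5' z_h caps_h hb hs hk hP hR hg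

end Pool.Agent.N711.DF.Rb5
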